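import Pool.Agent.V5helper38.EP.Stm

/-!
# Project EP, job ONE: one agent, small models
-/

set_option autoImplicit false

namespace Pool.Agent.V5helper16.EP

open Pool.Agent.V5helper38.EP

variable {W : Type}

/-- With one agent common knowledge is knowledge. -/
theorem common_iff (M : Model (Fin 1) W) (G : Finset (Fin 1)) (hG : G.Nonempty) (φ : Fm (Fin 1))
    (D : Set W) (w : W) (hw : w ∈ D) :
    sat M (.common G hG φ) D w ↔ ∀ v ∈ D, (M.R 0).r w v → sat M φ D v := by
  constructor
  · intro h v hv hr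
    refine h v (Relation.TransGen.single ⟨hw, hv, 0, ?_, hr⟩)
    obtain ⟨a, ha⟩ := hG
    have : a = 0 := Subsingleton.elim _ _
    rwa [this] at ha
  · intro h v hv
    have key : v ∈ D ∧ (M.R 0).r w v := by
      induction hv with
      | single h1 =>
        obtain ⟨-, h2, a, -, h3⟩ := h1
        have : a = 0 := Subsingleton.elim _ _
        rw [this] at h3
        exact ⟨h2, h3⟩
      | tail _ h1 ih =>
        obtain ⟨-, h2, a, -, h3⟩ := h1
        have : a = 0 := Subsingleton.elim _ _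
        rw [this] at h3
        exact ⟨h2, (M.R 0).iseqv.trans ih.2 h3⟩
    exact h v key.1 key.2

open Classical in
/-- the letters in `L` which are true at a world -/
noncomputable def ft (M : Model (Fin 1) W) (L : Finset ℕ) (v : W) : Finset ℕ :=
  L.filter (fun p => v ∈ M.V p)

/-- the worlds of the small model -/
def Sm (M : Model (Fin 1) W) (L : Finset ℕ) (w₀ : W) : Type :=
  {s : Finset ℕ // ∃ v, (M.R 0).r w₀ v ∧ ft M L v = s}

/-- the small model -/
def sm (M : Model (Fin 1) W) (L : Finset ℕ) (w₀ : W) : Model (Fin 1) (Sm M L w₀) where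
  R _ := ⊤
  V p := {s | p ∈ s.1}

/-- the map to the small model -/
noncomputable def gm (M : Model (Fin 1) W) (L : Finset ℕ) (w₀ v : W) (hv : (M.R 0).r w₀ v) :
    Sm M L w₀ := ⟨ft M L v, v, hv, rfl⟩

theorem key (M : Model (Fin 1) W) (L : Finset ℕ) (w₀ : W) (ψ : Fm (Fin 1)) :
    letters ψ ⊆ L → ∀ (D : Set W) (D' : Set (Sm M L w₀)),
      (∀ v (hv : (M.R 0).r w₀ v), v ∈ D ↔ gm M L w₀ v hv ∈ D') →
      ∀ v (hv : (M.R 0).r w₀ v), v ∈ D → (sat M ψ D v ↔ sat (sm M L w₀) ψ D' (gm M L w₀ v hv)) := by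
  have hknow : ∀ (φ : Fm (Fin 1)) (D : Set W) (D' : Set (Sm M L w₀)),
      (∀ v (hv : (M.R 0).r w₀ v), v ∈ D ↔ gm M L w₀ v hv ∈ D') →
      (∀ v (hv : (M.R 0).r w₀ v), v ∈ D → (sat M φ D v ↔ sat (sm M L w₀) φ D' (gm M L w₀ v hv))) →
      ∀ v (_ : (M.R 0).r w₀ v), v ∈ D →
      ((∀ u ∈ D, (M.R 0).r v u → sat M φ D u) ↔ ∀ s ∈ D', sat (sm M L w₀) φ D' s) := by
    intro φ D D' hD hφ v hv hvD
    constructor
    · intro h s hs
      obtain ⟨s, u, hu, rfl⟩ := s
      have h1 : u ∈ D := (hD u hu).2 hs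
      exact (hφ u hu h1).1 (h u h1 ((M.R 0).iseqv.trans ((M.R 0).iseqv.symm hv) hu))
    · intro h u hu hvu
      have h1 : (M.R 0).r w₀ u := (M.R 0).iseqv.trans hv hvu
      exact (hφ u h1 hu).2 (h _ ((hD u h1).1 hu))
  induction ψ with
  | atom p =>
    intro hL D D' hD v hv hvD
    have hp : p ∈ L := hL (by simp [letters])
    change v ∈ M.V p ↔ p ∈ ft M L v
    simp only [ft, Finset.mem_filter]
    exact ⟨fun h => ⟨hp, h⟩, fun h => h.2⟩
  | neg φ ih =>
    intro hL D D' hD v hv hvD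
    exact not_congr (ih hL D D' hD v hv hvD)
  | and φ ψ ih1 ih2 =>
    intro hL D D' hD v hv hvD
    exact and_congr (ih1 (Finset.union_subset_left hL) D D' hD v hv hvD)
      (ih2 (Finset.union_subset_right hL) D D' hD v hv hvD)
  | know a φ ih =>
    intro hL D D' hD v hv hvD
    have ha : a = 0 := Subsingleton.elim _ _
    subst ha
    have h1 := hknow φ D D' hD (ih hL D D' hD) v hv hvD
    refine Iff.trans h1 ?_
    exact ⟨fun h s hs _ => h s hs, fun h s hs => h s hs trivial⟩
  | common G hG φ ih =>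
    intro hL D D' hD v hv hvD
    have h1 := hknow φ D D' hD (ih hL D D' hD) v hv hvD
    rw [common_iff M G hG φ D v hvD, common_iff (sm M L w₀) G hG φ D' _ ((hD v hv).1 hvD)]
    refine Iff.trans h1 ?_
    exact ⟨fun h s hs _ => h s hs, fun h s hs => h s hs trivial⟩
  | ann φ ψ ih1 ih2 =>
    intro hL D D' hD v hv hvD
    have h1 := ih1 (Finset.union_subset_left hL) D D' hD
    have hD1 : ∀ v (hv : (M.R 0).r w₀ v), v ∈ {u | u ∈ D ∧ sat M φ D u} ↔
        gm M L w₀ v hv ∈ {s | s ∈ D' ∧ sat (sm M L w₀) φ D' s} := by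
      intro u hu
      constructor
      · rintro ⟨h2, h3⟩
        exact ⟨(hD u hu).1 h2, (h1 u hu h2).1 h3⟩
      · rintro ⟨h2, h3⟩
        have h4 := (hD u hu).2 h2
        exact ⟨h4, (h1 u hu h4).2 h3⟩
    constructor
    · intro h h2
      have h3 : sat M φ D v := (h1 v hv hvD).2 h2
      exact (ih2 (Finset.union_subset_right hL) _ _ hD1 v hv ⟨hvD, h3⟩).1 (h h3)
    · intro h h2
      have h3 := (h1 v hv hvD).1 h2
      exact (ih2 (Finset.union_subset_right hL) _ _ hD1 v hv ⟨hvD, h2⟩).2 (h h3)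
  | iter φ ψ ih1 ih2 =>
    intro hL D D' hD v hv hvD
    have hn : ∀ n : ℕ, ∀ v (hv : (M.R 0).r w₀ v),
        v ∈ (fun E : Set W => {v | v ∈ E ∧ sat M φ E v})^[n] D ↔
        gm M L w₀ v hv ∈ (fun E : Set (Sm M L w₀) => {v | v ∈ E ∧ sat (sm M L w₀) φ E v})^[n] D' := by
      intro n
      induction n with
      | zero => exact hD
      | succ n ihn =>
        intro u hu
        rw [Function.iterate_succ_apply', Function.iterate_succ_apply']
        constructor
        · rintro ⟨h2, h3⟩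
          exact ⟨(ihn u hu).1 h2,
            (ih1 (Finset.union_subset_left hL) _ _ ihn u hu h2).1 h3⟩
        · rintro ⟨h2, h3⟩
          have h4 := (ihn u hu).2 h2
          exact ⟨h4, (ih1 (Finset.union_subset_left hL) _ _ ihn u hu h4).2 h3⟩
    constructor
    · intro h n h2
      have h3 := (hn n v hv).2 h2
      exact (ih2 (Finset.union_subset_right hL) _ _ (hn n) v hv h3).1 (h n h3)
    · intro h n h2
      have h3 := (hn n v hv).1 h2
      exact (ih2 (Finset.union_subset_right hL) _ _ (hn n) v hv h2).2 (h n h3)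

/-- **JOB ONE.** -/
theorem t_ONE : S_ONE := by
  intro φ W₀ M₀ w₀ h
  have hinj : Function.Injective (fun s : Sm M₀ (letters φ) w₀ =>
      (⟨s.1, by
        obtain ⟨s, v, hv, rfl⟩ := s
        rw [Finset.mem_powerset]
        intro p hp
        simp only [ft, Finset.mem_filter] at hp
        exact hp.1⟩ : {s : Finset ℕ // s ∈ (letters φ).powerset})) := by
    intro s t hst
    have h1 : s.1 = t.1 := by simpa using hst
    exact Subtype.ext h1
  have hfin : Finite (Sm M₀ (letters φ) w₀) := Finite.of_injective _ hinj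
  refine ⟨Sm M₀ (letters φ) w₀, hfin, sm M₀ (letters φ) w₀,
    gm M₀ (letters φ) w₀ w₀ ((M₀.R 0).iseqv.refl w₀), ?_, ?_⟩
  · refine (Nat.card_le_card_of_injective _ hinj).trans ?_
    rw [Nat.card_eq_fintype_card, Fintype.card_coe, Finset.card_powerset]
  · intro hs
    exact h ((key M₀ (letters φ) w₀ φ (Finset.Subset.refl _) Set.univ Set.univ
      (fun v hv => by simp) w₀ _ (Set.mem_univ _)).2 hs)

end Pool.Agent.V5helper16.EP
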